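import Mathlib

set_option autoImplicit false

namespace Pool.Agent.H.MP_df87fb_al

section gen

variable {G : Type} [Group G] {k : ℕ} (X : Fin k → G)

def ev (w : List (Fin k × Bool)) : G := (w.map fun s => if s.2 then X s.1 else (X s.1)⁻¹).prod

theorem ev_append (v w : List (Fin k × Bool)) : ev X (v ++ w) = ev X v * ev X w := by
  simp [ev]

def Len (g : G) (n : ℕ) : Prop := ∃ w, ev X w = g ∧ w.length ≤ n

theorem Len.mono {g : G} {n m : ℕ} (h : Len X g n) (hnm : n ≤ m) : Len X g m := by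
  obtain ⟨w, h1, h2⟩ := h
  exact ⟨w, h1, h2.trans hnm⟩

theorem Len.mul {g h : G} {n m : ℕ} (h1 : Len X g n) (h2 : Len X h m) : Len X (g * h) (n + m) := by
  obtain ⟨v, rfl, hv⟩ := h1
  obtain ⟨w, rfl, hw⟩ := h2
  exact ⟨v ++ w, ev_append X v w, by simp; omega⟩

theorem ev_inv (w : List (Fin k × Bool)) :
    ev X ((w.map fun s => (s.1, !s.2)).reverse) = (ev X w)⁻¹ := by
  induction w with
  | nil => simp [ev]
  | cons s w ih =>
    rw [List.map_cons, List.reverse_cons, ev_append, ih]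
    rcases s with ⟨i, _ | _⟩ <;> simp [ev]

theorem Len.inv {g : G} {n : ℕ} (h : Len X g n) : Len X g⁻¹ n := by
  obtain ⟨w, rfl, hw⟩ := h
  exact ⟨_, ev_inv X w, by simpa using hw⟩

def pw (i : Fin k) (z : ℤ) : List (Fin k × Bool) := List.replicate z.natAbs (i, decide (0 ≤ z))

theorem ev_pw (i : Fin k) (z : ℤ) : ev X (pw i z) = X i ^ z := by
  unfold ev pw
  rw [List.map_replicate, List.prod_replicate]
  by_cases hz : 0 ≤ z
  · simp only [hz, decide_true, if_true]
    rw [← zpow_natCast, Int.natAbs_of_nonneg hz]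
  · simp only [hz, decide_false, Bool.false_eq_true, if_false]
    rw [← zpow_natCast, inv_zpow', Int.ofNat_natAbs_of_nonpos (by omega), neg_neg]

theorem len_zpow (i : Fin k) (z : ℤ) : Len X (X i ^ z) z.natAbs :=
  ⟨pw i z, ev_pw X i z, by simp [pw]⟩

def tr (z : ℤ) (s : ℕ) : ℤ := if 0 ≤ z then min z s else max z (-s)

theorem take_pw (i : Fin k) (z : ℤ) (s : ℕ) : (pw i z).take s = pw i (tr z s) := by
  unfold pw tr
  rw [List.take_replicate]
  by_cases hz : 0 ≤ z
  · simp only [hz, if_true, decide_true]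
    have h1 : 0 ≤ min z (s : ℤ) := by omega
    simp only [h1, decide_true]
    congr 1; omega
  · simp only [hz, if_false, decide_false]
    by_cases hs : s = 0
    · subst hs
      have : max z (-((0 : ℕ) : ℤ)) = 0 := by omega
      rw [this]; simp
    · have h1 : ¬ 0 ≤ max z (-(s : ℤ)) := by omega
      simp only [h1, decide_false]
      congr 1; omega

theorem tr_le (z : ℤ) (s : ℕ) : (tr z s).natAbs ≤ s := by
  unfold tr; split_ifs <;> omega

theorem tr_sub (z z' : ℤ) (s : ℕ) : (tr z s - tr z' s).natAbs ≤ (z - z').natAbs := by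
  unfold tr; split_ifs <;> omega

end gen

def tau (T : ℤ) : ℕ → ℤ
  | 0 => 2
  | 1 => T
  | (j + 2) => T * tau T (j + 1) - tau T j

theorem tau_facts (T : ℤ) (hT : 3 ≤ T) (j : ℕ) :
    (2 : ℤ) ^ j ≤ tau T j ∧ tau T j ≤ tau T (j + 1) ∧ 2 ^ (j + 1) ≤ tau T (j + 1) ∧
      tau T (j + 2) ≤ T * tau T (j + 1) := by
  induction j with
  | zero => simp only [tau]; refine ⟨by norm_num, by omega, by omega, by omega⟩
  | succ j ih =>
    obtain ⟨h1, h2, h3, h4⟩ := ih
    have h5 : (0 : ℤ) < 2 ^ j := by positivity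
    have h6 : tau T (j + 2) = T * tau T (j + 1) - tau T j := rfl
    have h7 : tau T (j + 3) = T * tau T (j + 2) - tau T (j + 1) := rfl
    have h8 : 2 * tau T (j + 1) ≤ tau T (j + 2) := by nlinarith
    refine ⟨h3, by linarith, ?_, ?_⟩
    · rw [pow_succ]; linarith
    · show tau T (j + 3) ≤ T * tau T (j + 2)
      linarith

theorem tau_aut {V : Type} [CommGroup V] (σ : MulAut V) (T : ℤ)
    (h : ∀ v, σ (σ v) * v = σ v ^ T) (j : ℕ) :
    ∀ v, (σ ^ j) v * (σ ^ j)⁻¹ v = v ^ tau T j := by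
  have h1 : ∀ v, σ v * σ⁻¹ v = v ^ T := by
    intro v
    have := h (σ⁻¹ v)
    simpa using this
  induction j using Nat.twoStepInduction with
  | zero => intro v; simp [tau, pow_two]
  | one => intro v; simpa [tau] using h1 v
  | more j ih0 ih1 =>
    intro v
    have e1 := ih1 (σ v)
    have e2 := ih1 (σ⁻¹ v)
    have e0 := ih0 v
    have a1 : (σ ^ (j + 1)) (σ v) = (σ ^ (j + 2)) v := by
      rw [pow_succ σ (j + 1)]; rfl
    have a2 : (σ ^ (j + 1))⁻¹ (σ v) = (σ ^ j)⁻¹ v := by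
      rw [← MulAut.mul_apply]; congr 1; group
    have a3 : (σ ^ (j + 1)) (σ⁻¹ v) = (σ ^ j) v := by
      rw [← MulAut.mul_apply]; congr 1; group
    have a4 : (σ ^ (j + 1))⁻¹ (σ⁻¹ v) = (σ ^ (j + 2))⁻¹ v := by
      rw [← MulAut.mul_apply]; congr 1; group
    rw [a1, a2] at e1
    rw [a3, a4] at e2
    have e3 : v ^ (T * tau T (j + 1)) = σ v ^ tau T (j + 1) * σ⁻¹ v ^ tau T (j + 1) := by
      rw [zpow_mul, ← h1, mul_zpow]
    show _ = v ^ (T * tau T (j + 1) - tau T j)
    rw [zpow_sub, e3, ← e1, ← e2, ← e0, eq_mul_inv_iff_mul_eq]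
    simp only [mul_comm, mul_left_comm]

theorem distort {G V : Type} [Group G] [CommGroup V] {k : ℕ} (X : Fin k → G) (ι : V →* G)
    (σ : MulAut V) (s : G) (hs : Len X s 2) (hσ : ∀ v, ι (σ v) = s * ι v * s⁻¹) (T : ℤ)
    (hT : 3 ≤ T) (h : ∀ v, σ (σ v) * v = σ v ^ T) (i : Fin k) (e : V) (he : ι e = X i) (z : ℤ)
    (n : ℕ) (hz : z.natAbs ≤ n) :
    Len X (X i ^ z) ((2 * T.natAbs + 9) * (Nat.log 2 n + 1)) := by
  have hpow : ∀ (j : ℕ) v, ι ((σ ^ j) v) = s ^ j * ι v * (s ^ j)⁻¹ := by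
    intro j
    induction j with
    | zero => intro v; simp
    | succ j ih =>
      intro v
      rw [pow_succ' σ, MulAut.mul_apply, hσ, ih, pow_succ' s]; group
  have hpow' : ∀ (j : ℕ) v, ι ((σ ^ j)⁻¹ v) = (s ^ j)⁻¹ * ι v * s ^ j := by
    intro j v
    have := hpow j ((σ ^ j)⁻¹ v)
    rw [MulAut.apply_inv_self] at this
    rw [this]; group
  have hsl : ∀ j : ℕ, Len X (s ^ j) (2 * j) := by
    intro j
    induction j with
    | zero => exact ⟨[], by simp [ev], by simp⟩
    | succ j ih => rw [pow_succ]; exact (ih.mul X hs).mono X (by omega)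
  have main : ∀ m : ℕ, ∀ y : ℤ, 0 ≤ y → y < tau T (m + 1) → ∃ u u' : V, e ^ y = u * u' ∧
      Len X (ι u * s ^ m) ((T.natAbs + 2) * (m + 1)) ∧
      Len X (ι u' * (s ^ m)⁻¹) ((T.natAbs + 2) * (m + 1)) := by
    intro m
    induction m with
    | zero =>
      intro y hy0 hy
      simp only [tau] at hy
      refine ⟨e ^ y, 1, by simp, ?_, ⟨[], by simp [ev], by simp⟩⟩
      rw [pow_zero, mul_one, map_zpow, he]
      exact (len_zpow X i y).mono X (by omega)
    | succ m ih =>
      intro y hy0 hy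
      obtain ⟨-, -, h3, h4⟩ := tau_facts T hT m
      have hpos : 0 < tau T (m + 1) := lt_of_lt_of_le (by positivity) h3
      obtain ⟨u, u', h5, h6, h7⟩ := ih (y % tau T (m + 1)) (Int.emod_nonneg _ hpos.ne')
        (Int.emod_lt_of_pos _ hpos)
      set c := y / tau T (m + 1) with hc
      have hc0 : 0 ≤ c := Int.ediv_nonneg hy0 hpos.le
      have hc1 : c < T := Int.ediv_lt_of_lt_mul hpos (lt_of_lt_of_le hy h4)
      have hl : Len X (ι (e ^ c)) T.natAbs := by
        rw [map_zpow, he]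
        exact (len_zpow X i c).mono X (by omega)
      refine ⟨u * (σ ^ (m + 1)) (e ^ c), u' * (σ ^ (m + 1))⁻¹ (e ^ c), ?_, ?_, ?_⟩
      · rw [mul_mul_mul_comm, ← h5, tau_aut σ T h, ← zpow_mul, ← zpow_add]
        congr 1
        rw [hc, mul_comm]
        exact (Int.emod_add_mul_ediv _ _).symm
      · have := (h6.mul X hs).mul X hl
        rw [map_mul, hpow]
        refine Len.mono X (n := _) (by convert this using 1; rw [pow_succ]; group) (by nlinarith)
      · have := (h7.mul X (hs.inv X)).mul X hl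
        rw [map_mul, hpow']
        refine Len.mono X (n := _) (by convert this using 1; rw [pow_succ]; group) (by nlinarith)
  have hlt : (z.natAbs : ℤ) < tau T (Nat.log 2 n + 1) := by
    have h1 := Nat.lt_pow_succ_log_self (b := 2) (by norm_num) n
    have h2 := (tau_facts T hT (Nat.log 2 n)).2.2.1
    have h3 : (z.natAbs : ℤ) < 2 ^ (Nat.log 2 n + 1) := by exact_mod_cast lt_of_le_of_lt hz h1
    linarith
  obtain ⟨u, u', h1, h2, h3⟩ := main _ _ (Int.natCast_nonneg _) hlt
  have h4 : Len X (X i ^ (z.natAbs : ℤ)) ((2 * T.natAbs + 9) * (Nat.log 2 n + 1)) := by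
    have h5 := ((h2.mul X ((hsl (Nat.log 2 n)).inv X)).mul X h3).mul X (hsl (Nat.log 2 n))
    rw [← he, ← map_zpow, h1, map_mul]
    refine Len.mono X (n := _) (by convert h5 using 1; group) (by nlinarith)
  rcases Int.natAbs_eq z with h5 | h5
  · rw [h5]; simpa using h4
  · rw [h5, zpow_neg]; simpa using h4.inv X

end Pool.Agent.H.MP_df87fb_al
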